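import Pool.Agent.Helper35.EM.ConjFree
import Pool.Agent.Helper35.EM.Model
import Pool.Graph.R_seed8.H340R2.LW

/-! # Project NL, package PI: free reals which begin with `π` and a number near `e` -/

set_option autoImplicit false

namespace Pool.Agent.Helper82.NL

open Set Pool.Agent.Helper35.EM

theorem pi_not : (Real.pi : ℂ) ∉ M.closure ∅ := fun h =>
  Pool.Agent.H340R2.LW.transcendental_pi_complex (mem_cl_empty.1 h)

/-- algebraically independent positive reals near given ones, the first one given -/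
theorem exists_freeR_first (p : ℝ) (hp : 0 < p) (hp0 : (p : ℂ) ∉ M.closure ∅) (y : ℕ → ℝ)
    (hy : ∀ n, 0 < y n) (ε : ℝ) (hε : 0 < ε) :
    ∃ t : ℕ → ℝ, FreeR (fun n => (t n : ℂ)) ∧ t 0 = p ∧ ∀ n, n ≠ 0 → |t n - y n| < ε := by
  have h : ∀ (l : List ℂ) (n : ℕ), ∃ x : ℝ, 0 < x ∧ (n ≠ 0 → |x - y n| < ε) ∧
      (n = 0 → l = [] → x = p) ∧ (x : ℂ) ∉ M.closure {a | a ∈ l} := by
    intro l n
    by_cases hn : n = 0 ∧ l = []
    · refine ⟨p, hp, fun h => absurd hn.1 h, fun _ _ => rfl, ?_⟩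
      rw [hn.2]
      have e : {a : ℂ | a ∈ ([] : List ℂ)} = ∅ := by simp
      rw [e]
      exact hp0
    · obtain ⟨x, h1, h2, h3⟩ := exists_near {a | a ∈ l} (l.finite_toSet.countable) (y n) ε (hy n) hε
      exact ⟨x, h1, fun _ => h2, fun h4 h5 => absurd ⟨h4, h5⟩ hn, h3⟩
  choose g hg1 hg2 hg3 hg4 using h
  let f : ℕ → List ℂ := fun n => Nat.rec [] (fun n l => (g l n : ℂ) :: l) n
  have hfs : ∀ n, f (n + 1) = (g (f n) n : ℂ) :: f n := fun n => rfl
  have hset : ∀ n, (fun k => ((g (f k) k : ℝ) : ℂ)) '' Iio n = {a | a ∈ f n} := by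
    intro n
    induction n with
    | zero =>
      ext a
      simp [f]
    | succ n ih =>
      have e : (Iio (n + 1) : Set ℕ) = insert n (Iio n) := by
        ext k
        simp only [mem_Iio, mem_insert_iff]
        omega
      rw [e, image_insert_eq, ih, hfs]
      ext a
      simp
  refine ⟨fun n => g (f n) n, ⟨?_, ?_⟩, hg3 (f 0) 0 rfl rfl, ?_⟩
  · intro n
    rw [hset n]
    exact hg4 (f n) n
  · intro n
    exact ⟨_, hg1 (f n) n, rfl⟩
  · intro n hn
    exact hg2 (f n) n hn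

/-- algebraically independent positive reals, the first one `π`, the second one near `e` -/
theorem exists_freeR_pi (ε : ℝ) (hε : 0 < ε) :
    ∃ t : ℕ → ℝ, FreeR (fun n => (t n : ℂ)) ∧ t 0 = Real.pi ∧ |t 1 - Real.exp 1| < ε := by
  obtain ⟨t, h1, h2, h3⟩ := exists_freeR_first Real.pi Real.pi_pos pi_not (fun _ => Real.exp 1)
    (fun _ => Real.exp_pos 1) ε hε
  exact ⟨t, h1, h2, h3 1 one_ne_zero⟩

/-- the same with any number of prescribed approximations -/
theorem exists_freeR_pi_near (y : ℕ → ℝ) (hy : ∀ n, 0 < y n) (ε : ℝ) (hε : 0 < ε) :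
    ∃ t : ℕ → ℝ, FreeR (fun n => (t n : ℂ)) ∧ t 0 = Real.pi ∧ ∀ n, n ≠ 0 → |t n - y n| < ε :=
  exists_freeR_first Real.pi Real.pi_pos pi_not y hy ε hε

end Pool.Agent.Helper82.NL
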